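import Mathlib
import Pool.Agent.H71.LocMin
import Pool.Agent.H71.HeisB

namespace Pool.Agent.Results.MP_335999_gt.Tight

open Filter Topology

/-- Locally minimal abelian groups of countable tightness are metrizable, while some locally
minimal (non-abelian) group of countable tightness is not even sequential. -/
theorem result :
    (∀ (G : Type) [CommGroup G] [τ : TopologicalSpace G] [IsTopologicalGroup G] [T2Space G],
      (∃ V ∈ nhds (1 : G), ∀ σ : TopologicalSpace G,
          @IsTopologicalGroup G σ _ → @T2Space G σ → τ ≤ σ → V ∈ @nhds G σ 1 → σ = τ) →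
      (∀ (A : Set G) (x : G), x ∈ closure A → ∃ B ⊆ A, B.Countable ∧ x ∈ closure B) →
      TopologicalSpace.MetrizableSpace G) ∧
    ∃ (G : Type) (_ : Group G) (τ : TopologicalSpace G), IsTopologicalGroup G ∧ T2Space G ∧
      (∃ V ∈ nhds (1 : G), ∀ σ : TopologicalSpace G,
          @IsTopologicalGroup G σ _ → @T2Space G σ → τ ≤ σ → V ∈ @nhds G σ 1 → σ = τ) ∧
      (∀ (A : Set G) (x : G), x ∈ closure A → ∃ B ⊆ A, B.Countable ∧ x ∈ closure B) ∧
      ¬ SequentialSpace G := by
  refine ⟨fun G _ τ _ _ ⟨U, hU, hlm⟩ ht => ?_, H71.HeisB.H, inferInstance, H71.HeisB.top,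
    inferInstance, inferInstance, ⟨_, H71.HeisB.mem_nhds.2 ⟨∅, subset_rfl⟩,
      fun σ h _ => H71.HeisB.locMin σ h⟩, H71.HeisB.tight, H71.HeisB.not_seq⟩
  obtain ⟨𝓑, hb, hc⟩ := H71.LocMin.LM.base le_rfl hlm hU fun S _ x _ hx =>
    (ht S x hx).imp fun T h => ⟨h.1, Cardinal.le_aleph0_iff_set_countable.2 h.2.1, h.2.2⟩
  have : (𝓝 (1 : G)).IsCountablyGenerated := HasCountableBasis.isCountablyGenerated
    ⟨hb, Cardinal.le_aleph0_iff_set_countable.1 hc⟩
  let u : UniformSpace G := IsTopologicalGroup.rightUniformSpace G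
  have : (uniformity G).IsCountablyGenerated := comap.isCountablyGenerated _ _
  exact UniformSpace.metrizableSpace

end Pool.Agent.Results.MP_335999_gt.Tight
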